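import Pool.Agent.Helper72_Valence.Arith

set_option autoImplicit false

/-- For every `α ∈ (0,1)` there are normalized univalent functions `f, g` on the unit disk such that
`α f + (1 - α) g` takes some complex value at infinitely many points of the disk. -/
theorem Pool.Agent.Results.MP_f04b5a_an.ArithmeticMean.result :
    ∀ α : ℝ, 0 < α → α < 1 →
      ∃ f g : ℂ → ℂ,
        (DifferentiableOn ℂ f (Metric.ball (0 : ℂ) 1) ∧ Set.InjOn f (Metric.ball (0 : ℂ) 1) ∧
          f 0 = 0 ∧ deriv f 0 = 1) ∧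
        (DifferentiableOn ℂ g (Metric.ball (0 : ℂ) 1) ∧ Set.InjOn g (Metric.ball (0 : ℂ) 1) ∧
          g 0 = 0 ∧ deriv g 0 = 1) ∧
        ∃ w : ℂ, {z : ℂ | z ∈ Metric.ball (0 : ℂ) 1 ∧
          (α : ℂ) * f z + (1 - (α : ℂ)) * g z = w}.Infinite :=
  fun α h0 h1 => Pool.Agent.Helper72_Valence.arith α h0 h1
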