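import Pool.Agent.Helper72_Valence.Geom

set_option autoImplicit false

/-- For every `α ∈ (0,1)` there are normalized univalent functions `f, g` on the unit disk, with
`Lf, Lg` the holomorphic branches on the disk of `log (f z / z)`, `log (g z / z)` vanishing at `0`,
such that `G z = z * exp (α * Lf z + (1 - α) * Lg z)` takes some complex value at infinitely many
points of the disk. -/
theorem Pool.Agent.Results.MP_f04b5a_an.GeometricMean.result :
    ∀ α : ℝ, 0 < α → α < 1 →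
      ∃ f g Lf Lg : ℂ → ℂ,
        (DifferentiableOn ℂ f (Metric.ball (0 : ℂ) 1) ∧ Set.InjOn f (Metric.ball (0 : ℂ) 1) ∧
          f 0 = 0 ∧ deriv f 0 = 1) ∧
        (DifferentiableOn ℂ g (Metric.ball (0 : ℂ) 1) ∧ Set.InjOn g (Metric.ball (0 : ℂ) 1) ∧
          g 0 = 0 ∧ deriv g 0 = 1) ∧
        (DifferentiableOn ℂ Lf (Metric.ball (0 : ℂ) 1) ∧ Lf 0 = 0 ∧
          ∀ z ∈ Metric.ball (0 : ℂ) 1, z ≠ 0 → Complex.exp (Lf z) = f z / z) ∧
        (DifferentiableOn ℂ Lg (Metric.ball (0 : ℂ) 1) ∧ Lg 0 = 0 ∧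
          ∀ z ∈ Metric.ball (0 : ℂ) 1, z ≠ 0 → Complex.exp (Lg z) = g z / z) ∧
        ∃ w : ℂ, {z : ℂ | z ∈ Metric.ball (0 : ℂ) 1 ∧
          z * Complex.exp ((α : ℂ) * Lf z + (1 - (α : ℂ)) * Lg z) = w}.Infinite :=
  fun α h0 h1 => Pool.Agent.Helper72_Valence.geom α h0 h1
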